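import Pool.Agent.Lib_helper53.MET.Defs2

set_option autoImplicit false

/-!
# MP_760942_al, block PIN0: the pinned module
-/

namespace Pool.Agent.MET

namespace P0

variable {k : ℕ}

/-- stabiliser of an element -/
def stab {k : ℕ} {M : Type*} [AddCommGroup M] [Module (L k) M] (m : M) :
    AddSubgroup (Fin k → ℤ) where
  carrier := {v | (xp v : L k) • m = m}
  zero_mem' := by
    change (xp 0 : L k) • m = m
    rw [xp_zero, one_smul]
  add_mem' := by
    intro v w hv hw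
    change (xp (v + w) : L k) • m = m
    rw [xp_add, mul_smul, show (xp w : L k) • m = m from hw, show (xp v : L k) • m = m from hv]
  neg_mem' := by
    intro v hv
    change (xp (-v) : L k) • m = m
    have h1 : (xp (-v) : L k) • ((xp v : L k) • m) = m := by
      rw [← mul_smul, ← xp_add, neg_add_cancel, xp_zero, one_smul]
    rw [show (xp v : L k) • m = m from hv] at h1
    exact h1

theorem mem_stab {k : ℕ} {M : Type*} [AddCommGroup M] [Module (L k) M] (m : M) (v : Fin k → ℤ) :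
    v ∈ stab m ↔ (xp v : L k) • m = m := Iff.rfl

theorem fr_add (a b a' b' : ℤ) (v v' : Fin k → ℤ) :
    fr (a + a') (b + b') (v + v') = fr a b v + fr a' b' v' := by
  funext i
  refine Fin.cases ?_ (fun i => ?_) i
  · simp [fr]
  · refine Fin.cases ?_ (fun i => ?_) i <;> simp [fr]

theorem fr3_add (e a b e' a' b' : ℤ) (v v' : Fin k → ℤ) :
    fr3 (e + e') (a + a') (b + b') (v + v') = fr3 e a b v + fr3 e' a' b' v' := by
  funext i
  refine Fin.cases ?_ (fun i => ?_) i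
  · simp [fr3]
  · simp [fr3, fr_add]

/-- reading off the coordinates -/
theorem fr3_ext (w w' : Fin (k + 3) → ℤ) (h0 : w 0 = w' 0) (h1 : w (Fin.succ 0) = w' (Fin.succ 0))
    (h2 : w (Fin.succ (Fin.succ 0)) = w' (Fin.succ (Fin.succ 0)))
    (h3 : ∀ i : Fin k, w i.succ.succ.succ = w' i.succ.succ.succ) : w = w' := by
  funext i
  refine Fin.cases h0 (fun i => ?_) i
  refine Fin.cases h1 (fun i => ?_) i
  exact Fin.cases h2 h3 i

theorem fr_ext (w w' : Fin (k + 2) → ℤ) (h0 : w 0 = w' 0) (h1 : w (Fin.succ 0) = w' (Fin.succ 0))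
    (h3 : ∀ i : Fin k, w i.succ.succ = w' i.succ.succ) : w = w' := by
  funext i
  refine Fin.cases h0 (fun i => ?_) i
  exact Fin.cases h1 h3 i

theorem fr3_0 (e a b : ℤ) (v : Fin k → ℤ) : fr3 e a b v 0 = e := rfl
theorem fr3_1 (e a b : ℤ) (v : Fin k → ℤ) : fr3 e a b v (Fin.succ 0) = a := rfl
theorem fr3_2 (e a b : ℤ) (v : Fin k → ℤ) : fr3 e a b v (Fin.succ (Fin.succ 0)) = b := rfl
theorem fr3_3 (e a b : ℤ) (v : Fin k → ℤ) (i : Fin k) : fr3 e a b v i.succ.succ.succ = v i := rfl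

theorem fr3_eta (w : Fin (k + 3) → ℤ) :
    ∃ (e a b : ℤ) (v : Fin k → ℤ), w = fr3 e a b v :=
  ⟨w 0, w (Fin.succ 0), w (Fin.succ (Fin.succ 0)), fun i => w i.succ.succ.succ,
    fr3_ext _ _ rfl rfl rfl fun _ => rfl⟩

theorem fr_eta (w : Fin (k + 2) → ℤ) :
    ∃ (a b : ℤ) (v : Fin k → ℤ), w = fr a b v :=
  ⟨w 0, w (Fin.succ 0), fun i => w i.succ.succ, fr_ext _ _ rfl rfl fun _ => rfl⟩

theorem x3_mul (e a b e' a' b' : ℤ) (v v' : Fin k → ℤ) :
    (x3 e a b v : L (k + 3)) * x3 e' a' b' v' = x3 (e + e') (a + a') (b + b') (v + v') := by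
  unfold x3
  rw [← xp_add, fr3_add]

theorem x3_zero : (x3 0 0 0 (0 : Fin k → ℤ) : L (k + 3)) = 1 := by
  unfold x3
  rw [show fr3 0 0 0 (0 : Fin k → ℤ) = 0 from fr3_ext _ _ rfl rfl rfl fun _ => rfl, xp_zero]

theorem mon_val (K j : ℕ) (i : Fin K) : mon K [(j, true)] i = if j = (i : ℕ) then 1 else 0 := by
  simp [mon]

theorem mon_z : mon (k + 3) [(0, true)] = fr3 1 0 0 0 := by
  refine fr3_ext _ _ ?_ ?_ ?_ fun i => ?_ <;>
    simp only [mon_val, fr3_0, fr3_1, fr3_2, fr3_3, Fin.val_succ, Fin.val_zero, Pi.zero_apply] <;>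
    simp

theorem mon_y1 : mon (k + 3) [(1, true)] = fr3 0 1 0 0 := by
  refine fr3_ext _ _ ?_ ?_ ?_ fun i => ?_ <;>
    simp only [mon_val, fr3_0, fr3_1, fr3_2, fr3_3, Fin.val_succ, Fin.val_zero, Pi.zero_apply] <;>
    simp

theorem mon_y2 : mon (k + 3) [(2, true)] = fr3 0 0 1 0 := by
  refine fr3_ext _ _ ?_ ?_ ?_ fun i => ?_ <;>
    simp only [mon_val, fr3_0, fr3_1, fr3_2, fr3_3, Fin.val_succ, Fin.val_zero, Pi.zero_apply] <;>
    simp

theorem mon_x (j : Fin k) : mon (k + 3) [((j : ℕ) + 3, true)] = fr3 0 0 0 (Pi.single j 1) := by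
  refine fr3_ext _ _ ?_ ?_ ?_ fun i => ?_
  · rw [mon_val, fr3_0, if_neg]
    rw [Fin.val_zero]; omega
  · rw [mon_val, fr3_1, if_neg]
    rw [Fin.val_succ, Fin.val_zero]; omega
  · rw [mon_val, fr3_2, if_neg]
    rw [Fin.val_succ, Fin.val_succ, Fin.val_zero]; omega
  · rw [mon_val, fr3_3, Pi.single_apply]
    by_cases h : i = j
    · subst h
      rw [if_pos rfl, if_pos]
      rw [Fin.val_succ, Fin.val_succ, Fin.val_succ]
    · rw [if_neg h, if_neg]
      rw [Fin.val_succ, Fin.val_succ, Fin.val_succ]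
      intro hh
      exact h (Fin.ext (by omega))

/-- shift by one letter -/
theorem mon_sh (K : ℕ) (w : Word) : mon (K + 1) (sh 1 w) = Fin.cons (α := fun _ => ℤ) 0 (mon K w) := by
  funext i
  refine Fin.cases ?_ (fun i => ?_) i
  · simp only [mon, sh, List.map_map, Fin.val_zero, Fin.cons_zero]
    apply List.sum_eq_zero
    intro x hx
    rw [List.mem_map] at hx
    obtain ⟨p, _, rfl⟩ := hx
    simp
  · simp only [mon, sh, List.map_map, Fin.val_succ, Fin.cons_succ]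
    congr 1
    apply List.map_congr_left
    intro p _
    simp

/-! ### membership of the relations -/

section rels

variable (c : MCode)

theorem mem_sh (r : Rel) (hr : r ∈ c.2.2) : shr 2 1 r ∈ (pin c).2.2 := by
  simp only [pin, List.mem_append, List.mem_map]
  exact Or.inl (Or.inl (Or.inl ⟨r, hr, rfl⟩))

theorem mem_e (i : ℕ) (hi : i < c.2.1) : eqn 0 (i + 2) 1 ∈ (pin c).2.2 := by
  simp only [pin, List.mem_append, List.mem_map, List.mem_range]
  exact Or.inl (Or.inl (Or.inr ⟨i, hi, rfl⟩))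

theorem mem_six (r : Rel) (hr : r ∈ [eqn 0 0 2, eqn 1 0 1, eqn 2 0 1, eqn 0 1 2, eqn 1 1 5, eqn 2 1 7]) :
    r ∈ (pin c).2.2 := by
  simp only [pin, List.mem_append]
  exact Or.inl (Or.inr hr)

theorem mem_x (j : ℕ) (hj : j < c.1) : eqn (j + 3) 1 1 ∈ (pin c).2.2 := by
  simp only [pin, List.mem_append, List.mem_map, List.mem_range]
  exact Or.inr ⟨j, hj, rfl⟩

theorem mem_cases (r : Rel) (hr : r ∈ (pin c).2.2) :
    (∃ s ∈ c.2.2, r = shr 2 1 s) ∨ (∃ i, i < c.2.1 ∧ r = eqn 0 (i + 2) 1) ∨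
    r = eqn 0 0 2 ∨ r = eqn 1 0 1 ∨ r = eqn 2 0 1 ∨ r = eqn 0 1 2 ∨ r = eqn 1 1 5 ∨ r = eqn 2 1 7 ∨
    (∃ j, j < c.1 ∧ r = eqn (j + 3) 1 1) := by
  simp only [pin, List.mem_append, List.mem_map, List.mem_range, List.mem_cons,
    List.not_mem_nil, or_false] at hr
  rcases hr with ((⟨s, hs, rfl⟩ | ⟨i, hi, rfl⟩) | h) | ⟨j, hj, rfl⟩
  · exact Or.inl ⟨s, hs, rfl⟩
  · exact Or.inr (Or.inl ⟨i, hi, rfl⟩)
  · rcases h with h | h | h | h | h | h <;> simp [h]
  · exact Or.inr (Or.inr (Or.inr (Or.inr (Or.inr (Or.inr (Or.inr (Or.inr ⟨j, hj, rfl⟩)))))))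

end rels

/-- evaluation of a shifted relation -/
theorem ev_shr {K b : ℕ} {B : Type*} [AddCommGroup B] (ρ : (Fin (K + 1) → ℤ) → B →+ B) (β : ℕ → B)
    (r : Rel) :
    ev ρ (b + 2) β (shr 2 1 r) = (r.map fun t => if t.1 < b then
      sg t.2.1 • ρ (Fin.cons (α := fun _ => ℤ) 0 (mon K t.2.2)) (β (t.1 + 2)) else 0).sum := by
  simp only [ev, shr, List.map_map]
  congr 1
  apply List.map_congr_left
  intro t _
  simp only [Function.comp, mon_sh, Nat.add_lt_add_iff_right]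

/-- evaluation of a relation in the module itself -/
theorem pm_rel' {K b : ℕ} {R : List Rel} (r : Rel) (hr : r ∈ R) :
    (r.map fun t => if t.1 < b then
      sg t.2.1 • ((xp (mon K t.2.2) : L K) • (gen t.1 : PM K b R)) else 0).sum = 0 := by
  refine Eq.trans ?_ (pm_rel (k := K) (b := b) (R := R) r hr)
  congr 1
  apply List.map_congr_left
  intro t _
  by_cases ht : t.1 < b
  · rw [if_pos ht]
  · simp only [if_neg ht, gen_of_le (Nat.not_lt.mp ht), smul_zero]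

/-- multiplication by a monomial as an additive map -/
noncomputable def mulx {K : ℕ} {M : Type*} [AddCommGroup M] [Module (L K) M] (v : Fin K → ℤ) :
    M →+ M := DistribSMul.toAddMonoidHom M (xp v : L K)

theorem mulx_apply {K : ℕ} {M : Type*} [AddCommGroup M] [Module (L K) M] (v : Fin K → ℤ) (m : M) :
    mulx v m = (xp v : L K) • m := rfl

/-- the inclusion -/
theorem exists_iota (c : MCode) : ∃ ι : PM (c.1 + 2) c.2.1 c.2.2 →+ Mp c,
    (∀ i, i < c.2.1 → ι (gen i) = gen (i + 2)) ∧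
    ∀ v m, ι (xp v • m) = (xp (Fin.cons (α := fun _ => ℤ) 0 v) : L (c.1 + 3)) • ι m := by
  refine up (k := c.1 + 2) (b := c.2.1) (R := c.2.2) (B := Mp c)
    (fun v => mulx (Fin.cons (α := fun _ => ℤ) 0 v)) ?_ ?_ (fun i => gen (i + 2)) ?_
  · intro x
    rw [mulx_apply, show (Fin.cons (α := fun _ => ℤ) 0 (0 : Fin (c.1 + 2) → ℤ) : Fin (c.1 + 3) → ℤ) = 0 from
      fr3_ext _ _ rfl rfl rfl fun _ => rfl, xp_zero, one_smul]
  · intro v w x
    rw [mulx_apply, mulx_apply, mulx_apply, ← mul_smul, ← xp_add]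
    refine congrArg (fun u : Fin (c.1 + 3) → ℤ => (xp u : L (c.1 + 3)) • x) ?_
    funext i
    refine Fin.cases rfl (fun i => rfl) i
  · intro r hr
    have h := pm_rel' (K := c.1 + 3) (b := c.2.1 + 2) (R := (pin c).2.2) _ (mem_sh c r hr)
    simp only [shr, List.map_map] at h
    unfold ev
    refine Eq.trans ?_ h
    congr 1
    apply List.map_congr_left
    intro t _
    simp only [Function.comp, mon_sh, Nat.add_lt_add_iff_right, mulx_apply]

theorem tail_mon0 (K j : ℕ) : (fun i : Fin K => mon (K + 1) [(j + 1, true)] i.succ) = mon K [(j, true)] := by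
  funext i
  rw [mon_val, mon_val, Fin.val_succ]
  simp

theorem tail_mon_z (K : ℕ) : (fun i : Fin K => mon (K + 1) [(0, true)] i.succ) = 0 := by
  funext i
  rw [mon_val, Fin.val_succ, if_neg (by omega)]
  rfl

/-- action through the last coordinates -/
noncomputable def rP (K : ℕ) (M : Type) [AddCommGroup M] [Module (L K) M] (v : Fin (K + 1) → ℤ) :
    M →+ M := mulx (fun i : Fin K => v i.succ)

theorem rP_zero (K : ℕ) (M : Type) [AddCommGroup M] [Module (L K) M] (x : M) : rP K M 0 x = x := by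
  change (xp (0 : Fin K → ℤ) : L K) • x = x
  rw [xp_zero, one_smul]

theorem rP_add (K : ℕ) (M : Type) [AddCommGroup M] [Module (L K) M] (v w : Fin (K + 1) → ℤ) (x : M) :
    rP K M (v + w) x = rP K M v (rP K M w x) := by
  unfold rP
  rw [mulx_apply, mulx_apply, mulx_apply, ← mul_smul, ← xp_add]
  rfl

/-- the retraction -/
theorem exists_retr (c : MCode) : ∃ p : Mp c →+ PM (c.1 + 2) c.2.1 c.2.2,
    (∀ i, i < c.2.1 → p (gen (i + 2)) = gen i) ∧
    ∀ v m, p (xp v • m) = (xp (fun i : Fin (c.1 + 2) => v i.succ) : L (c.1 + 2)) • p m := by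
  suffices H : ∃ p : Mp c →+ PM (c.1 + 2) c.2.1 c.2.2,
      (∀ i, i < c.2.1 + 2 → p (gen i) = (fun i => if 2 ≤ i then gen (i - 2) else 0) i) ∧
      ∀ v m, p (xp v • m) = rP (c.1 + 2) (PM (c.1 + 2) c.2.1 c.2.2) v (p m) by
    obtain ⟨p, h1, h2⟩ := H
    refine ⟨p, fun i hi => ?_, h2⟩
    rw [h1 (i + 2) (by omega)]
    change (if 2 ≤ i + 2 then gen (i + 2 - 2) else 0) = gen i
    rw [if_pos (by omega), Nat.add_sub_cancel]
  refine up (k := c.1 + 3) (b := c.2.1 + 2) (R := (pin c).2.2)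
    (B := PM (c.1 + 2) c.2.1 c.2.2) (rP (c.1 + 2) _) (rP_zero _ _) (rP_add _ _)
    (fun i => if 2 ≤ i then gen (i - 2) else 0) ?_
  intro r hr
  have hz : ∀ j m : ℕ, ∀ i < 2, ev (rP (c.1 + 2) (PM (c.1 + 2) c.2.1 c.2.2)) (c.2.1 + 2)
      (fun i => if 2 ≤ i then gen (i - 2) else 0) (eqn j i m) = 0 := by
    intro j m i hi
    rw [ev_eqn _ _ (rP_zero _ _) j i m (by omega)]
    simp only [if_neg (Nat.not_le.2 hi), map_zero, smul_zero, sub_zero]
  rcases mem_cases c r hr with ⟨s, hs, rfl⟩ | ⟨i, hi, rfl⟩ | rfl | rfl | rfl | rfl | rfl | rfl | ⟨j, hj, rfl⟩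
  · rw [ev_shr]
    refine Eq.trans ?_ (pm_rel' (K := c.1 + 2) (b := c.2.1) (R := c.2.2) s hs)
    congr 1
  · rw [ev_eqn _ _ (rP_zero _ _) _ _ _ (by omega)]
    unfold rP
    rw [mulx_apply, tail_mon_z, xp_zero, one_smul, one_smul, sub_self]
  all_goals exact hz _ _ _ (by norm_num)

/-- action on `ℚ[ℤ^k]` -/
noncomputable def rR (k : ℕ) (v : Fin (k + 3) → ℤ) :
    AddMonoidAlgebra ℚ (Fin k → ℤ) →+ AddMonoidAlgebra ℚ (Fin k → ℤ) :=
  AddMonoidHom.mulLeft (AddMonoidAlgebra.single (fun i : Fin k => v i.succ.succ.succ) ((2 : ℚ) ^ v 0))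

theorem rR_apply (k : ℕ) (v : Fin (k + 3) → ℤ) (x : AddMonoidAlgebra ℚ (Fin k → ℤ)) : rR k v x =
    AddMonoidAlgebra.single (fun i : Fin k => v i.succ.succ.succ) ((2 : ℚ) ^ v 0) * x := rfl

theorem rR_fr3 (k : ℕ) (e a b : ℤ) (v : Fin k → ℤ) (x : AddMonoidAlgebra ℚ (Fin k → ℤ)) :
    rR k (fr3 e a b v) x = AddMonoidAlgebra.single v ((2 : ℚ) ^ e) * x := rfl

theorem rR_zero (k : ℕ) (x : AddMonoidAlgebra ℚ (Fin k → ℤ)) : rR k 0 x = x := by
  change AddMonoidAlgebra.single (0 : Fin k → ℤ) ((2 : ℚ) ^ (0 : ℤ)) * x = x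
  rw [zpow_zero, ← AddMonoidAlgebra.one_def, one_mul]

theorem rR_add (k : ℕ) (v w : Fin (k + 3) → ℤ) (x : AddMonoidAlgebra ℚ (Fin k → ℤ)) :
    rR k (v + w) x = rR k v (rR k w x) := by
  rw [rR_apply, rR_apply, rR_apply, ← mul_assoc, AddMonoidAlgebra.single_mul_single, Pi.add_apply,
    zpow_add₀ (by norm_num)]
  rfl

/-- the character of `R` -/
theorem exists_thR (c : MCode) : ∃ f : Mp c →+ AddMonoidAlgebra ℚ (Fin c.1 → ℤ),
    (∀ i, i < c.2.1 + 2 → f (gen i) = if i = 0 then 1 else 0) ∧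
    ∀ v m, f (xp v • m) = rR c.1 v (f m) := by
  refine up (k := c.1 + 3) (b := c.2.1 + 2) (R := (pin c).2.2)
    (B := AddMonoidAlgebra ℚ (Fin c.1 → ℤ)) (rR c.1) (rR_zero _) (rR_add _)
    (fun i => if i = 0 then 1 else 0) ?_
  intro r hr
  rcases mem_cases c r hr with ⟨s, hs, rfl⟩ | ⟨i, hi, rfl⟩ | rfl | rfl | rfl | rfl | rfl | rfl | ⟨j, hj, rfl⟩
  · rw [ev_shr]
    apply List.sum_eq_zero
    intro x hx
    rw [List.mem_map] at hx
    obtain ⟨t, _, rfl⟩ := hx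
    rw [if_neg (by omega : ¬ t.1 + 2 = 0), map_zero, smul_zero, ite_self]
  · rw [ev_eqn _ _ (rR_zero _) _ _ _ (by omega), if_neg (by omega), map_zero, smul_zero, sub_zero]
  · rw [ev_eqn _ _ (rR_zero _) _ _ _ (by omega), if_pos rfl, mon_z, rR_fr3, mul_one, zpow_one,
      AddMonoidAlgebra.one_def, two_nsmul, ← AddMonoidAlgebra.single_add, sub_eq_zero]
    norm_num
  · rw [ev_eqn _ _ (rR_zero _) _ _ _ (by omega), if_pos rfl, mon_y1, rR_fr3, mul_one, zpow_zero,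
      AddMonoidAlgebra.one_def, one_smul, sub_self]
  · rw [ev_eqn _ _ (rR_zero _) _ _ _ (by omega), if_pos rfl, mon_y2, rR_fr3, mul_one, zpow_zero,
      AddMonoidAlgebra.one_def, one_smul, sub_self]
  · rw [ev_eqn _ _ (rR_zero _) _ _ _ (by omega), if_neg (by omega), map_zero, smul_zero, sub_zero]
  · rw [ev_eqn _ _ (rR_zero _) _ _ _ (by omega), if_neg (by omega), map_zero, smul_zero, sub_zero]
  · rw [ev_eqn _ _ (rR_zero _) _ _ _ (by omega), if_neg (by omega), map_zero, smul_zero, sub_zero]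
  · rw [ev_eqn _ _ (rR_zero _) _ _ _ (by omega), if_neg (by omega), map_zero, smul_zero, sub_zero]

/-- action on `ℚ` -/
noncomputable def rT (k : ℕ) (v : Fin (k + 3) → ℤ) : ℚ →+ ℚ :=
  AddMonoidHom.mulLeft ((2 : ℚ) ^ v 0 * 5 ^ v (Fin.succ 0) * 7 ^ v (Fin.succ (Fin.succ 0)))

theorem rT_apply (k : ℕ) (v : Fin (k + 3) → ℤ) (x : ℚ) : rT k v x =
    ((2 : ℚ) ^ v 0 * 5 ^ v (Fin.succ 0) * 7 ^ v (Fin.succ (Fin.succ 0))) * x := rfl

theorem rT_fr3 (k : ℕ) (e a b : ℤ) (v : Fin k → ℤ) (x : ℚ) :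
    rT k (fr3 e a b v) x = (2 : ℚ) ^ e * 5 ^ a * 7 ^ b * x := rfl

theorem rT_zero (k : ℕ) (x : ℚ) : rT k 0 x = x := by
  rw [rT_apply]
  simp

theorem rT_add (k : ℕ) (v w : Fin (k + 3) → ℤ) (x : ℚ) : rT k (v + w) x = rT k v (rT k w x) := by
  rw [rT_apply, rT_apply, rT_apply, Pi.add_apply, Pi.add_apply, Pi.add_apply,
    zpow_add₀ (by norm_num), zpow_add₀ (by norm_num), zpow_add₀ (by norm_num)]
  ring

/-- the character of `T` -/
theorem exists_thT (c : MCode) : ∃ f : Mp c →+ ℚ,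
    (∀ i, i < c.2.1 + 2 → f (gen i) = if i = 1 then 1 else 0) ∧
    ∀ v m, f (xp v • m) = rT c.1 v (f m) := by
  refine up (k := c.1 + 3) (b := c.2.1 + 2) (R := (pin c).2.2)
    (B := ℚ) (rT c.1) (rT_zero _) (rT_add _) (fun i => if i = 1 then 1 else 0) ?_
  intro r hr
  rcases mem_cases c r hr with ⟨s, hs, rfl⟩ | ⟨i, hi, rfl⟩ | rfl | rfl | rfl | rfl | rfl | rfl | ⟨j, hj, rfl⟩
  · rw [ev_shr]
    apply List.sum_eq_zero
    intro x hx
    rw [List.mem_map] at hx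
    obtain ⟨t, _, rfl⟩ := hx
    rw [if_neg (by omega : ¬ t.1 + 2 = 1), map_zero, smul_zero, ite_self]
  · rw [ev_eqn _ _ (rT_zero _) _ _ _ (by omega), if_neg (by omega), map_zero, smul_zero, sub_zero]
  · rw [ev_eqn _ _ (rT_zero _) _ _ _ (by omega), if_neg (by omega), map_zero, smul_zero, sub_zero]
  · rw [ev_eqn _ _ (rT_zero _) _ _ _ (by omega), if_neg (by omega), map_zero, smul_zero, sub_zero]
  · rw [ev_eqn _ _ (rT_zero _) _ _ _ (by omega), if_neg (by omega), map_zero, smul_zero, sub_zero]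
  · rw [ev_eqn _ _ (rT_zero _) _ _ _ (by omega), if_pos rfl, mon_z, rT_fr3]
    norm_num
  · rw [ev_eqn _ _ (rT_zero _) _ _ _ (by omega), if_pos rfl, mon_y1, rT_fr3]
    norm_num
  · rw [ev_eqn _ _ (rT_zero _) _ _ _ (by omega), if_pos rfl, mon_y2, rT_fr3]
    norm_num
  · rw [ev_eqn _ _ (rT_zero _) _ _ _ (by omega), if_pos rfl, mon_x ⟨j, hj⟩, rT_fr3]
    norm_num

/-! ### relations of the generators -/

section gens

variable (c : MCode)

theorem gz_e (i : ℕ) (hi : i < c.2.1) : (x3 1 0 0 (0 : Fin c.1 → ℤ)) • (gen (i + 2) : Mp c) = gen (i + 2) := by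
  have h := pm_eqn (k := c.1 + 3) (b := c.2.1 + 2) 0 (i + 2) 1 (mem_e c i hi)
  rw [mon_z, one_smul] at h
  exact h

theorem gz_r : (x3 1 0 0 (0 : Fin c.1 → ℤ)) • (gen 0 : Mp c) = 2 • gen 0 := by
  have h := pm_eqn (k := c.1 + 3) (b := c.2.1 + 2) 0 0 2 (mem_six c _ (by simp))
  rw [mon_z] at h
  exact h

theorem gy1_r : (x3 0 1 0 (0 : Fin c.1 → ℤ)) • (gen 0 : Mp c) = gen 0 := by
  have h := pm_eqn (k := c.1 + 3) (b := c.2.1 + 2) 1 0 1 (mem_six c _ (by simp))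
  rw [mon_y1, one_smul] at h
  exact h

theorem gy2_r : (x3 0 0 1 (0 : Fin c.1 → ℤ)) • (gen 0 : Mp c) = gen 0 := by
  have h := pm_eqn (k := c.1 + 3) (b := c.2.1 + 2) 2 0 1 (mem_six c _ (by simp))
  rw [mon_y2, one_smul] at h
  exact h

theorem gz_t : (x3 1 0 0 (0 : Fin c.1 → ℤ)) • (gen 1 : Mp c) = 2 • gen 1 := by
  have h := pm_eqn (k := c.1 + 3) (b := c.2.1 + 2) 0 1 2 (mem_six c _ (by simp))
  rw [mon_z] at h
  exact h

theorem gy1_t : (x3 0 1 0 (0 : Fin c.1 → ℤ)) • (gen 1 : Mp c) = 5 • gen 1 := by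
  have h := pm_eqn (k := c.1 + 3) (b := c.2.1 + 2) 1 1 5 (mem_six c _ (by simp))
  rw [mon_y1] at h
  exact h

theorem gy2_t : (x3 0 0 1 (0 : Fin c.1 → ℤ)) • (gen 1 : Mp c) = 7 • gen 1 := by
  have h := pm_eqn (k := c.1 + 3) (b := c.2.1 + 2) 2 1 7 (mem_six c _ (by simp))
  rw [mon_y2] at h
  exact h

theorem gx_t (v : Fin c.1 → ℤ) : (x3 0 0 0 v) • (gen 1 : Mp c) = gen 1 := by
  let F : (Fin c.1 → ℤ) →+ (Fin (c.1 + 3) → ℤ) :=
    { toFun := fun v => fr3 0 0 0 v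
      map_zero' := fr3_ext _ _ rfl rfl rfl fun _ => rfl
      map_add' := fun v w => by
        have h := fr3_add 0 0 0 0 0 0 v w
        simpa using h }
  have h1 : F v ∈ stab (gen 1 : Mp c) := by
    have hv : v = ∑ j, v j • (Pi.single j 1 : Fin c.1 → ℤ) := by
      funext i
      simp [Finset.sum_apply, Pi.single_apply]
    rw [hv, map_sum]
    apply AddSubgroup.sum_mem
    intro j _
    rw [map_zsmul]
    apply AddSubgroup.zsmul_mem
    rw [mem_stab]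
    have h := pm_eqn (k := c.1 + 3) (b := c.2.1 + 2) _ _ _ (mem_x c j j.2)
    rw [mon_x, one_smul] at h
    exact h
  exact h1

theorem gy_r (a b : ℤ) : (x3 0 a b (0 : Fin c.1 → ℤ)) • (gen 0 : Mp c) = gen 0 := by
  have h1 : fr3 0 a b (0 : Fin c.1 → ℤ) ∈ stab (gen 0 : Mp c) := by
    have h2 : fr3 0 a b (0 : Fin c.1 → ℤ) = a • fr3 0 1 0 (0 : Fin c.1 → ℤ) + b • fr3 0 0 1 (0 : Fin c.1 → ℤ) := by
      refine fr3_ext _ _ ?_ ?_ ?_ fun i => ?_
      · rw [Pi.add_apply, Pi.smul_apply, Pi.smul_apply, fr3_0, fr3_0, fr3_0]; simp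
      · rw [Pi.add_apply, Pi.smul_apply, Pi.smul_apply, fr3_1, fr3_1, fr3_1]; simp
      · rw [Pi.add_apply, Pi.smul_apply, Pi.smul_apply, fr3_2, fr3_2, fr3_2]; simp
      · rw [Pi.add_apply, Pi.smul_apply, Pi.smul_apply, fr3_3, fr3_3, fr3_3]; simp
    rw [h2]
    exact AddSubgroup.add_mem _ (AddSubgroup.zsmul_mem _ ((mem_stab _ _).2 (gy1_r c)) _)
      (AddSubgroup.zsmul_mem _ ((mem_stab _ _).2 (gy2_r c)) _)
  exact h1

/-- the monomial `z` commutes with everything -/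
theorem z_comm (v : Fin (c.1 + 3) → ℤ) (m : Mp c) (w : Fin (c.1 + 3) → ℤ) :
    (xp w : L (c.1 + 3)) • ((xp v : L (c.1 + 3)) • m) = (xp v : L (c.1 + 3)) • ((xp w : L (c.1 + 3)) • m) := by
  rw [← mul_smul, mul_comm, mul_smul]

theorem quad' (m : Mp c) : x3 1 0 0 (0 : Fin c.1 → ℤ) • (x3 1 0 0 (0 : Fin c.1 → ℤ) • m)
    = 3 • (x3 1 0 0 (0 : Fin c.1 → ℤ) • m) - 2 • m := by
  refine pm_induction (motive := fun m : Mp c => x3 1 0 0 (0 : Fin c.1 → ℤ) • (x3 1 0 0 (0 : Fin c.1 → ℤ) • m)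
    = 3 • (x3 1 0 0 (0 : Fin c.1 → ℤ) • m) - 2 • m) m ?_ ?_ ?_ ?_
  · simp only [smul_zero, sub_zero]
  · intro a b ha hb
    simp only [smul_add, ha, hb]
    abel
  · intro a ha
    simp only [smul_neg, ha]
    abel
  · intro v i hi
    have h : ∀ n : ℕ, n * n + 2 = 3 * n → x3 1 0 0 (0 : Fin c.1 → ℤ) • (gen i : Mp c) = n • gen i →
        x3 1 0 0 (0 : Fin c.1 → ℤ) • (x3 1 0 0 (0 : Fin c.1 → ℤ) • ((xp v : L (c.1 + 3)) • (gen i : Mp c)))
        = 3 • (x3 1 0 0 (0 : Fin c.1 → ℤ) • ((xp v : L (c.1 + 3)) • (gen i : Mp c))) -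
          2 • ((xp v : L (c.1 + 3)) • (gen i : Mp c)) := by
      intro n hn hg
      have h1 : x3 1 0 0 (0 : Fin c.1 → ℤ) • ((xp v : L (c.1 + 3)) • (gen i : Mp c)) =
          n • ((xp v : L (c.1 + 3)) • (gen i : Mp c)) := by
        rw [x3, z_comm]
        change (xp v : L (c.1 + 3)) • (x3 1 0 0 (0 : Fin c.1 → ℤ) • (gen i : Mp c)) = _
        rw [hg, smul_comm]
      rw [h1, smul_comm, h1, ← mul_smul, ← mul_smul, ← hn, add_smul, add_sub_cancel_right]
    rcases Nat.lt_or_ge i 2 with h2 | h2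
    · interval_cases i
      · exact h 2 rfl (gz_r c)
      · exact h 2 rfl (gz_t c)
    · obtain ⟨j, rfl⟩ := Nat.exists_eq_add_of_le' h2
      refine h 1 rfl ?_
      rw [one_smul]
      exact gz_e c j (by omega)

end gens

section final

variable (c : MCode)

/-- values of powers on `ρ` -/
theorem rho_pow (n : ℕ) (a b : ℤ) (v : Fin c.1 → ℤ) :
    x3 (n : ℤ) a b v • (gen 0 : Mp c) = ((2 : ℤ) ^ n) • (x3 0 0 0 v • (gen 0 : Mp c)) := by
  induction n with
  | zero =>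
    have h : (x3 0 a b v : L (c.1 + 3)) = x3 0 0 0 v * x3 0 a b 0 := by
      rw [x3_mul]; simp
    rw [Nat.cast_zero, h, mul_smul, gy_r, pow_zero, one_smul]
  | succ n ih =>
    have h : (x3 ((n + 1 : ℕ) : ℤ) a b v : L (c.1 + 3)) = x3 (n : ℤ) a b v * x3 1 0 0 0 := by
      rw [x3_mul]; simp
    rw [h, mul_smul, gz_r, smul_comm, ih,
      show (2 : ℕ) • (((2 : ℤ) ^ n) • (x3 0 0 0 v • (gen 0 : Mp c))) =
        (2 : ℤ) • (((2 : ℤ) ^ n) • (x3 0 0 0 v • (gen 0 : Mp c))) from (natCast_zsmul _ 2).symm,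
      ← mul_smul, ← pow_succ']

theorem tau_pow (n a b : ℕ) (v : Fin c.1 → ℤ) :
    x3 (n : ℤ) a b v • (gen 1 : Mp c) = ((2 : ℤ) ^ n * 5 ^ a * 7 ^ b) • (gen 1 : Mp c) := by
  induction n with
  | zero =>
    induction a with
    | zero =>
      induction b with
      | zero => simpa using gx_t c v
      | succ b ih =>
        have h : (x3 ((0 : ℕ) : ℤ) ((0 : ℕ) : ℤ) ((b + 1 : ℕ) : ℤ) v : L (c.1 + 3)) =
            x3 0 0 1 0 * x3 ((0 : ℕ) : ℤ) ((0 : ℕ) : ℤ) (b : ℤ) v := by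
          rw [x3_mul]; simp [add_comm]
        rw [h, mul_smul, ih, smul_comm, gy2_t]
        rw [show (7 : ℕ) • (gen 1 : Mp c) = (7 : ℤ) • (gen 1 : Mp c) from (natCast_zsmul _ 7).symm,
          ← mul_smul]
        congr 1
        ring
    | succ a ih =>
      have h : (x3 ((0 : ℕ) : ℤ) ((a + 1 : ℕ) : ℤ) (b : ℤ) v : L (c.1 + 3)) =
          x3 0 1 0 0 * x3 ((0 : ℕ) : ℤ) (a : ℤ) (b : ℤ) v := by
        rw [x3_mul]; simp [add_comm]
      rw [h, mul_smul, ih, smul_comm, gy1_t]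
      rw [show (5 : ℕ) • (gen 1 : Mp c) = (5 : ℤ) • (gen 1 : Mp c) from (natCast_zsmul _ 5).symm,
        ← mul_smul]
      congr 1
      ring
  | succ n ih =>
    have h : (x3 ((n + 1 : ℕ) : ℤ) (a : ℤ) (b : ℤ) v : L (c.1 + 3)) =
        x3 1 0 0 0 * x3 (n : ℤ) (a : ℤ) (b : ℤ) v := by
      rw [x3_mul]; simp [add_comm]
    rw [h, mul_smul, ih, smul_comm, gz_t]
    rw [show (2 : ℕ) • (gen 1 : Mp c) = (2 : ℤ) • (gen 1 : Mp c) from (natCast_zsmul _ 2).symm,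
      ← mul_smul]
    congr 1
    ring

/-- inclusion of the group ring of the `x` variables -/
noncomputable def emb (k : ℕ) : L k →+ L (k + 3) :=
  (AddMonoidAlgebra.mapDomainRingHom ℤ
    ({ toFun := fun v => fr3 0 0 0 v
       map_zero' := fr3_ext _ _ rfl rfl rfl fun _ => rfl
       map_add' := fun v w => by
         have h := fr3_add 0 0 0 0 0 0 v w
         simpa using h } : (Fin k → ℤ) →+ (Fin (k + 3) → ℤ))).toAddMonoidHom

theorem emb_xp (v : Fin k → ℤ) : emb k (xp v) = x3 0 0 0 v := by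
  simp [emb, xp, x3]

/-- `f ↦ f ρ` -/
noncomputable def J : L c.1 →+ Mp c where
  toFun f := emb c.1 f • gen 0
  map_zero' := by rw [map_zero, zero_smul]
  map_add' f g := by rw [map_add, add_smul]

theorem J_xp (v : Fin c.1 → ℤ) : J c (xp v) = x3 0 0 0 v • gen 0 := by
  change emb c.1 (xp v) • (gen 0 : Mp c) = _
  rw [emb_xp]

theorem J_pow (n : ℕ) (f : L c.1) : x3 (n : ℤ) n n (0 : Fin c.1 → ℤ) • J c f = J c (((2 : ℤ) ^ n) • f) := by
  refine L_induction (motive := fun f => x3 (n : ℤ) n n (0 : Fin c.1 → ℤ) • J c f = J c (((2 : ℤ) ^ n) • f)) f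
    ?_ ?_ ?_ ?_
  · simp
  · intro a b ha hb
    rw [map_add, smul_add, ha, hb, smul_add, map_add]
  · intro a ha
    rw [map_neg, smul_neg, ha, smul_neg, map_neg]
  · intro v
    rw [map_zsmul, J_xp, ← mul_smul, x3_mul, ← rho_pow c n n n v]
    simp

/-- after clearing denominators, elements of the form `f ρ + n τ` -/
def Good (m : Mp c) : Prop :=
  ∃ (N : ℕ) (f : L c.1) (n : ℤ), x3 (N : ℤ) N N (0 : Fin c.1 → ℤ) • m = J c f + n • gen 1

theorem good_up (m : Mp c) (N M : ℕ) (f : L c.1) (n : ℤ)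
    (h : x3 (N : ℤ) N N (0 : Fin c.1 → ℤ) • m = J c f + n • gen 1) :
    x3 ((M + N : ℕ) : ℤ) ((M + N : ℕ) : ℤ) ((M + N : ℕ) : ℤ) (0 : Fin c.1 → ℤ) • m =
      J c (((2 : ℤ) ^ M) • f) + (n * (2 ^ M * 5 ^ M * 7 ^ M)) • gen 1 := by
  have h1 : (x3 ((M + N : ℕ) : ℤ) ((M + N : ℕ) : ℤ) ((M + N : ℕ) : ℤ) (0 : Fin c.1 → ℤ) : L (c.1 + 3)) =
      x3 (M : ℤ) M M 0 * x3 (N : ℤ) N N 0 := by
    rw [x3_mul]; simp
  rw [h1, mul_smul, h, smul_add, J_pow, smul_comm, tau_pow, ← mul_smul]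

theorem good_add (m m' : Mp c) (h : Good c m) (h' : Good c m') : Good c (m + m') := by
  obtain ⟨N, f, n, h⟩ := h
  obtain ⟨N', f', n', h'⟩ := h'
  have h1 := good_up c m N N' f n h
  have h2 := good_up c m' N' N f' n' h'
  rw [add_comm N N'] at h2
  refine ⟨N' + N, ((2 : ℤ) ^ N') • f + ((2 : ℤ) ^ N) • f',
    n * (2 ^ N' * 5 ^ N' * 7 ^ N') + n' * (2 ^ N * 5 ^ N * 7 ^ N), ?_⟩
  rw [smul_add, h1, h2, map_add, add_smul]
  abel

theorem good_neg (m : Mp c) (h : Good c m) : Good c (-m) := by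
  obtain ⟨N, f, n, h⟩ := h
  refine ⟨N, -f, -n, ?_⟩
  rw [smul_neg, h, map_neg, neg_smul]
  abel

theorem good_zero : Good c (0 : Mp c) := ⟨0, 0, 0, by simp⟩

theorem good_r (v : Fin (c.1 + 3) → ℤ) : Good c ((xp v : L (c.1 + 3)) • gen 0) := by
  obtain ⟨e, a, b, u, rfl⟩ := fr3_eta v
  have h1 : ∃ e' : ℕ, (e.natAbs : ℤ) + e = e' := ⟨((e.natAbs : ℤ) + e).toNat, by omega⟩
  obtain ⟨e', hN⟩ := h1
  refine ⟨e.natAbs, ((2 : ℤ) ^ e') • xp u, 0, ?_⟩
  change _ • (x3 e a b u • (gen 0 : Mp c)) = _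
  rw [← mul_smul, x3_mul, hN, rho_pow, map_zsmul, J_xp, zero_smul, add_zero, zero_add]

theorem good_t (v : Fin (c.1 + 3) → ℤ) : Good c ((xp v : L (c.1 + 3)) • gen 1) := by
  obtain ⟨e, a, b, u, rfl⟩ := fr3_eta v
  set N : ℕ := e.natAbs + a.natAbs + b.natAbs with hN
  have h1 : ∃ e' : ℕ, (N : ℤ) + e = e' := ⟨((N : ℤ) + e).toNat, by omega⟩
  have h2 : ∃ e' : ℕ, (N : ℤ) + a = e' := ⟨((N : ℤ) + a).toNat, by omega⟩
  have h3 : ∃ e' : ℕ, (N : ℤ) + b = e' := ⟨((N : ℤ) + b).toNat, by omega⟩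
  obtain ⟨e', h1⟩ := h1
  obtain ⟨a', h2⟩ := h2
  obtain ⟨b', h3⟩ := h3
  refine ⟨N, 0, (2 : ℤ) ^ e' * 5 ^ a' * 7 ^ b', ?_⟩
  change _ • (x3 e a b u • (gen 1 : Mp c)) = _
  rw [← mul_smul, x3_mul, h1, h2, h3, tau_pow, map_zero, zero_add]

/-- `(z - 1) m` is good -/
theorem good_z (m : Mp c) : Good c (x3 1 0 0 (0 : Fin c.1 → ℤ) • m - m) := by
  refine pm_induction (motive := fun m : Mp c => Good c (x3 1 0 0 (0 : Fin c.1 → ℤ) • m - m)) m ?_ ?_ ?_ ?_
  · rw [smul_zero, sub_zero]; exact good_zero c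
  · intro a b ha hb
    have h : x3 1 0 0 (0 : Fin c.1 → ℤ) • (a + b) - (a + b) =
        (x3 1 0 0 (0 : Fin c.1 → ℤ) • a - a) + (x3 1 0 0 (0 : Fin c.1 → ℤ) • b - b) := by
      rw [smul_add]; abel
    rw [h]
    exact good_add c _ _ ha hb
  · intro a ha
    have h : x3 1 0 0 (0 : Fin c.1 → ℤ) • (-a) - (-a) = -(x3 1 0 0 (0 : Fin c.1 → ℤ) • a - a) := by
      rw [smul_neg]; abel
    rw [h]
    exact good_neg c _ ha
  · intro v i hi
    have hc : x3 1 0 0 (0 : Fin c.1 → ℤ) • ((xp v : L (c.1 + 3)) • (gen i : Mp c)) =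
        (xp v : L (c.1 + 3)) • (x3 1 0 0 (0 : Fin c.1 → ℤ) • (gen i : Mp c)) := by
      rw [x3, z_comm]
    rw [hc]
    rcases Nat.lt_or_ge i 2 with h2 | h2
    · interval_cases i
      · rw [gz_r, two_nsmul, smul_add, add_sub_cancel_right]
        exact good_r c v
      · rw [gz_t, two_nsmul, smul_add, add_sub_cancel_right]
        exact good_t c v
    · obtain ⟨j, rfl⟩ := Nat.exists_eq_add_of_le' h2
      rw [gz_e c j (by omega), sub_self]
      exact good_zero c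

/-- integral coefficients inside rational ones -/
noncomputable def toQ (k : ℕ) : L k →+* AddMonoidAlgebra ℚ (Fin k → ℤ) :=
  AddMonoidAlgebra.mapRingHom (Fin k → ℤ) (Int.castRingHom ℚ)

theorem toQ_xp (v : Fin k → ℤ) : toQ k (xp v) = AddMonoidAlgebra.single v 1 := by
  simp [toQ, xp]

theorem toQ_inj (k : ℕ) : Function.Injective (toQ k) := by
  intro f g h
  ext v
  have h1 := congrArg (fun x : AddMonoidAlgebra ℚ (Fin k → ℤ) => x.coeff v) h
  simp only [toQ, AddMonoidAlgebra.coeff_mapRingHom, eq_intCast] at h1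
  exact_mod_cast h1

end final

end P0

/-- PIN0 -/
theorem pin0 (c : MCode) : Nonempty (PinData c) := by
  obtain ⟨ι, hι1, hι2⟩ := P0.exists_iota c
  obtain ⟨p, hp1, hp2⟩ := P0.exists_retr c
  obtain ⟨f, hf1, hf2⟩ := P0.exists_thR c
  obtain ⟨g, hg1, hg2⟩ := P0.exists_thT c
  have hinj : ∀ m, p (ι m) = m := by
    intro m
    have h := pm_ext (p.comp ι) (AddMonoidHom.id _) (by
      intro v i hi
      rw [AddMonoidHom.comp_apply, AddMonoidHom.id_apply, hι2, hι1 i hi, hp2, hp1 i hi]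
      rfl)
    exact DFunLike.congr_fun h m
  have hfix : ∀ m, x3 1 0 0 (0 : Fin c.1 → ℤ) • ι m = ι m := by
    intro m
    refine pm_induction (motive := fun m => x3 1 0 0 (0 : Fin c.1 → ℤ) • ι m = ι m) m ?_ ?_ ?_ ?_
    · rw [map_zero, smul_zero]
    · intro a b ha hb; rw [map_add, smul_add, ha, hb]
    · intro a ha; rw [map_neg, smul_neg, ha]
    · intro v i hi
      rw [hι2, hι1 i hi, x3, P0.z_comm]
      exact congrArg _ (P0.gz_e c i hi)
  have hsm : ∀ (e a b : ℤ) (v : Fin c.1 → ℤ) (m : PM (c.1 + 2) c.2.1 c.2.2),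
      x3 e a b v • ι m = ι ((xp (fr a b v) : L (c.1 + 2)) • m) := by
    intro e a b v m
    have h1 : (x3 e a b v : L (c.1 + 3)) = x3 0 a b v * x3 e 0 0 0 := by
      rw [P0.x3_mul]; simp
    have h2 : x3 e 0 0 (0 : Fin c.1 → ℤ) • ι m = ι m := by
      have h3 : fr3 e 0 0 (0 : Fin c.1 → ℤ) = e • fr3 1 0 0 (0 : Fin c.1 → ℤ) := by
        refine P0.fr3_ext _ _ ?_ ?_ ?_ fun i => ?_
        · rw [Pi.smul_apply, P0.fr3_0, P0.fr3_0]; simp
        · rw [Pi.smul_apply, P0.fr3_1, P0.fr3_1]; simp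
        · rw [Pi.smul_apply, P0.fr3_2, P0.fr3_2]; simp
        · rw [Pi.smul_apply, P0.fr3_3, P0.fr3_3]; simp
      have h4 : fr3 e 0 0 (0 : Fin c.1 → ℤ) ∈ P0.stab (ι m) := by
        rw [h3]
        exact AddSubgroup.zsmul_mem _ ((P0.mem_stab _ _).2 (hfix m)) _
      exact h4
    rw [h1, mul_smul, h2, hι2]
    rfl
  have hker : ∀ m : Mp c, ∃ m', ι m' = 2 • m - x3 1 0 0 (0 : Fin c.1 → ℤ) • m := by
    intro m
    refine pm_induction (motive := fun m : Mp c => ∃ m', ι m' = 2 • m - x3 1 0 0 (0 : Fin c.1 → ℤ) • m)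
      m ?_ ?_ ?_ ?_
    · exact ⟨0, by rw [map_zero, smul_zero, smul_zero, sub_zero]⟩
    · rintro a b ⟨a', ha⟩ ⟨b', hb⟩
      refine ⟨a' + b', ?_⟩
      rw [map_add, ha, hb, smul_add, smul_add]
      abel
    · rintro a ⟨a', ha⟩
      refine ⟨-a', ?_⟩
      rw [map_neg, ha, smul_neg, smul_neg]
      abel
    · intro v i hi
      have hc : x3 1 0 0 (0 : Fin c.1 → ℤ) • ((xp v : L (c.1 + 3)) • (gen i : Mp c)) =
          (xp v : L (c.1 + 3)) • (x3 1 0 0 (0 : Fin c.1 → ℤ) • (gen i : Mp c)) := by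
        rw [x3, P0.z_comm]
      rw [hc]
      rcases Nat.lt_or_ge i 2 with h2 | h2
      · refine ⟨0, ?_⟩
        rw [map_zero]
        interval_cases i
        · rw [P0.gz_r, smul_comm, sub_self]
        · rw [P0.gz_t, smul_comm, sub_self]
      · obtain ⟨j, rfl⟩ := Nat.exists_eq_add_of_le' h2
        obtain ⟨e, a, b, u, rfl⟩ := P0.fr3_eta v
        refine ⟨(xp (fr a b u) : L (c.1 + 2)) • gen j, ?_⟩
        rw [← hsm e, hι1 j (by omega), P0.gz_e c j (by omega), two_smul, add_sub_cancel_right]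
        rfl
  have hfJ : ∀ F : L c.1, f (P0.J c F) = P0.toQ c.1 F := by
    intro F
    refine L_induction (motive := fun F => f (P0.J c F) = P0.toQ c.1 F) F ?_ ?_ ?_ ?_
    · rw [map_zero, map_zero, map_zero]
    · intro a b ha hb; rw [map_add, map_add, map_add, ha, hb]
    · intro a ha; rw [map_neg, map_neg, map_neg, ha]
    · intro v
      rw [P0.J_xp, x3, hf2, hf1 0 (by omega), if_pos rfl, P0.rR_fr3, P0.toQ_xp, mul_one, zpow_zero]
  have hgJ : ∀ F : L c.1, g (P0.J c F) = 0 := by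
    intro F
    refine L_induction (motive := fun F => g (P0.J c F) = 0) F ?_ ?_ ?_ ?_
    · rw [map_zero, map_zero]
    · intro a b ha hb; rw [map_add, map_add, ha, hb, add_zero]
    · intro a ha; rw [map_neg, map_neg, ha, neg_zero]
    · intro v
      rw [P0.J_xp, x3, hg2, hg1 0 (by omega), if_neg (by omega), map_zero]
  exact ⟨{
    ι := ι
    thR := f
    thT := g
    inj := fun a b h => by rw [← hinj a, ← hinj b, h]
    ι_smul := hsm
    ker1 := by
      intro m hm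
      obtain ⟨m', h'⟩ := hker m
      exact ⟨m', by rw [h', hm, two_smul, add_sub_cancel_right]⟩
    quad := P0.quad' c
    thR_smul := fun e a b v m => by rw [x3, hf2, P0.rR_fr3]
    thT_smul := fun e a b v m => by rw [x3, hg2, P0.rT_fr3]
    joint := by
      intro m hm h1 h2
      obtain ⟨N, F, n, h⟩ := P0.good_z c m
      rw [hm, two_smul, add_sub_cancel_right] at h
      have h3 : P0.toQ c.1 F = 0 := by
        have h4 := congrArg f h
        rw [x3, hf2, h1, map_zero, map_add, map_zsmul, hf1 1 (by omega), if_neg (by omega), smul_zero,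
          add_zero, hfJ] at h4
        exact h4.symm
      have h5 : F = 0 := P0.toQ_inj c.1 (by rw [h3, map_zero])
      have h6 : n = 0 := by
        have h4 := congrArg g h
        rw [x3, hg2, h2, map_zero, map_add, map_zsmul, hg1 1 (by omega), if_pos rfl, hgJ, zero_add] at h4
        have h7 : (n : ℚ) = 0 := by simpa using h4.symm
        exact_mod_cast h7
      rw [h5, h6, map_zero, zero_smul, add_zero] at h
      have h8 : (x3 (-(N : ℤ)) (-(N : ℤ)) (-(N : ℤ)) (0 : Fin c.1 → ℤ) : L (c.1 + 3)) *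
          x3 (N : ℤ) N N 0 = 1 := by
        rw [P0.x3_mul]; simp [P0.x3_zero]
      rw [← one_smul (L (c.1 + 3)) m, ← h8, mul_smul, h, smul_zero]
    thR_gen := by rw [hf1 0 (by omega), if_pos rfl]
    thR_gen' := by rw [hf1 1 (by omega), if_neg (by omega)]
    thT_gen := by rw [hg1 1 (by omega), if_pos rfl]
    thT_gen' := by rw [hg1 0 (by omega), if_neg (by omega)]
    rho_z := P0.gz_r c
    rho_y := P0.gy_r c
    tau_z := P0.gz_t c
    tau_y := P0.gy1_t c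
    tau_y' := P0.gy2_t c
    tau_x := P0.gx_t c }⟩

end Pool.Agent.MET
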